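import Pool.Agent.Lib.MP_7518b9_an.Final

/-!
# MP_7518b9_an: the answer is no for every `p ≠ 2`

For every `1 < p < ∞` with `p ≠ 2`, both scalar fields, and every selective ultrafilter `U`, some
operator in the WOT closure `𝒜` of `{T^U}` lies in no `𝒜_r`.
-/

open MeasureTheory
open scoped ENNReal

namespace Pool.Agent.Results.MP_7518b9_an.UnboundedWOT

open Pool.Agent.Lib.MP_7518b9_an

/-- Let `𝕜` be `ℝ` or `ℂ`, let `1 < p < ∞` with `p ≠ 2`, and let `U` be a selective ultrafilter on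
`ℕ`. Then it is not true that every operator `S` in `𝒜 = wotClosure 𝕜 L^p U` lies in
`𝒜_r = wotClosureBdd 𝕜 L^p U r` for some `r > 0`. -/
theorem result (𝕜 : Type) [RCLike 𝕜] (p : ℝ≥0∞) [Fact (1 ≤ p)] (hp1 : 1 < p) (hpt : p ≠ ∞)
    (hp2 : p ≠ 2) (U : Ultrafilter ℕ) (hU : IsSelective U) :
    ¬ ExhaustedByBounded 𝕜 (LpI 𝕜 p) U := by
  intro h
  obtain ⟨S, hS, hr⟩ := main 𝕜 p hp1 hpt hp2 U hU
  obtain ⟨r, hr0, hr1⟩ := h S hS
  exact hr r hr0 hr1

end Pool.Agent.Results.MP_7518b9_an.UnboundedWOT
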